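import Mathlib
import Pool.Agent.H97R2.BP.Defs
import Pool.Agent.H97R2.BP.Defs2

/-!
# CMPR: the hypertrace is comparable with the nearly tracial functional
-/

open scoped ComplexOrder InnerProductSpace ComplexConjugate TensorProduct
open Finset H759R2.Kad H710R2.DP

noncomputable section

namespace H97R2.BP

namespace ZZ55

variable {H : Type} [NormedAddCommGroup H] [InnerProductSpace ℂ H] [CompleteSpace H]

theorem nsq (T : H →L[ℂ] H) (ξ : H) : ‖T ξ‖ ^ 2 = (⟪ξ, (star T * T) ξ⟫_ℂ).re := by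
  rw [mul_apply_eq_comp, ContinuousLinearMap.star_eq_adjoint,
    ContinuousLinearMap.adjoint_inner_right, inner_self_eq_norm_sq_to_K]
  norm_cast

theorem nsq_eq {S T : H →L[ℂ] H} (h : star S * S = star T * T) (ξ : H) :
    ‖S ξ‖ ^ 2 = ‖T ξ‖ ^ 2 := by
  rw [nsq, nsq, h]

/-- a state is bounded on self-adjoint elements -/
theorem state_le {Ψ : (H →L[ℂ] H) →ₗ[ℂ] ℂ} (hpos : ∀ x, 0 ≤ Ψ (star x * x)) (hone : Ψ 1 = 1)
    {d : H →L[ℂ] H} (hd : IsSelfAdjoint d) {ε : ℝ} (hε : ‖d‖ ≤ ε) : (Ψ d).re ≤ ε := by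
  have h1 : d ≤ algebraMap ℝ (H →L[ℂ] H) ‖d‖ := hd.le_algebraMap_norm_self
  rw [← sub_nonneg, CStarAlgebra.nonneg_iff_eq_star_mul_self] at h1
  obtain ⟨s, hs⟩ := h1
  have h2 := hpos s
  rw [← hs, map_sub] at h2
  have h3 : algebraMap ℝ (H →L[ℂ] H) ‖d‖ = ((‖d‖ : ℝ) : ℂ) • (1 : H →L[ℂ] H) := by
    rw [Algebra.algebraMap_eq_smul_one]
    ext ξ
    simp
  rw [h3, map_smul, hone] at h2
  have h4 := (Complex.le_def.mp h2).1
  simp at h4
  linarith

end ZZ55

open ZZ55 in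
theorem bp_cmpr (h : V_dix.{0}) (hpol : C_polar.{0}) : Z_cmpr := by
  intro H _ _ _ M p hpM k η _ hnear Ψ hΨ hΨz x hx
  obtain ⟨v, b, -, ⟨y, hy⟩, hbb, -⟩ := hpol H M ⟨x, hx⟩
  obtain ⟨B, hB⟩ : ∃ B : H →L[ℂ] H, B = (b : H →L[ℂ] H) := ⟨_, rfl⟩
  have hBM : B ∈ M := by rw [hB]; exact b.2
  have hBs : star B = B := by
    have h1 : star b = b := by rw [hy, star_mul, star_star]
    have h2 := congrArg (fun t : M.toStarSubalgebra => (t : H →L[ℂ] H)) h1
    rw [hB]
    exact h2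
  have hBB : B * B = star x * x := by
    have h2 := congrArg (fun t : M.toStarSubalgebra => (t : H →L[ℂ] H)) hbb
    rw [hB]
    exact h2
  have hone : Ψ 1 = 1 := by
    have h1 := hΨ.supp 1
    rw [mul_one, hpM.1.2, hΨ.one] at h1
    exact h1.symm
  obtain ⟨X, hX⟩ : ∃ X : ℝ, X = ∑ j, ‖x (η j)‖ ^ 2 := ⟨_, rfl⟩
  obtain ⟨S, hS⟩ : ∃ S : ℝ, S = ∑ j, ‖η j‖ ^ 2 := ⟨_, rfl⟩
  have hS0 : 0 ≤ S := by rw [hS]; positivity
  rw [← hX]
  -- unitary conjugates
  have hconj : ∀ g : H →L[ℂ] H, g ∈ M → g * star g = 1 → star g * g = 1 →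
      (∑ j, ⟪η j, (g * (star x * x) * star g) (η j)⟫_ℂ).re ≤ 2 * X ∧
      X ≤ 2 * (∑ j, ⟪η j, (g * (star x * x) * star g) (η j)⟫_ℂ).re ∧
      Ψ (g * (star x * x) * star g) = Ψ (star x * x) := by
    intro g hg hg1 hg2
    have hY : g * B ∈ M := mul_mem hg hBM
    have hYs : star (g * B) ∈ M := star_mem hY
    have h1 : ∀ ξ, ‖(g * B) ξ‖ ^ 2 = ‖x ξ‖ ^ 2 := by
      intro ξ
      apply nsq_eq
      rw [star_mul, hBs]
      calc B * star g * (g * B) = B * (star g * g) * B := by simp only [mul_assoc]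
        _ = B * B := by rw [hg2, mul_one]
        _ = star x * x := hBB
    have h2 : ∀ ξ, ‖star (g * B) ξ‖ ^ 2 = (⟪ξ, (g * (star x * x) * star g) ξ⟫_ℂ).re := by
      intro ξ
      rw [nsq, star_star]
      have h3 : g * B * star (g * B) = g * (star x * x) * star g := by
        rw [star_mul, hBs, ← hBB]
        simp only [mul_assoc]
      rw [h3]
    have h3 : (∑ j, ⟪η j, (g * (star x * x) * star g) (η j)⟫_ℂ).re =
        ∑ j, ‖star (g * B) (η j)‖ ^ 2 := by
      rw [Complex.re_sum]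
      exact Finset.sum_congr rfl fun j _ => (h2 _).symm
    have h4 : X = ∑ j, ‖(g * B) (η j)‖ ^ 2 := by
      rw [hX]
      exact Finset.sum_congr rfl fun j _ => (h1 _).symm
    refine ⟨?_, ?_, ?_⟩
    · rw [h3, h4]
      exact hnear _ hY
    · rw [h3, h4]
      have h5 := hnear _ hYs
      rw [star_star] at h5
      exact h5
    · rw [mul_assoc, hΨ.comm g hg, mul_assoc, hg2, mul_one]
  have hsa : IsSelfAdjoint (star x * x) := IsSelfAdjoint.star_mul_self x
  have hsM : star x * x ∈ M := mul_mem (star_mem hx) hx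
  have main : ∀ ε : ℝ, 0 < ε → (Ψ (star x * x)).re ≤ 2 * X + (1 + S) * ε ∧
      X ≤ 2 * (Ψ (star x * x)).re + 2 * (1 + S) * ε := by
    intro ε hε
    obtain ⟨N, g, z, hg, hz, hzs, hd⟩ := h H M (star x * x) hsM hsa ε hε
    obtain ⟨A, hA⟩ : ∃ A : H →L[ℂ] H,
      A = ((N + 1 : ℂ))⁻¹ • ∑ k, g k * (star x * x) * star (g k) := ⟨_, rfl⟩
    rw [← hA] at hd
    have hN : (0 : ℝ) < (N : ℝ) + 1 := by positivity
    have hNc : ((N + 1 : ℂ))⁻¹ = ((((N : ℝ) + 1)⁻¹ : ℝ) : ℂ) := by push_cast; ring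
    have hAs : IsSelfAdjoint A := by
      rw [hA, hNc]
      unfold IsSelfAdjoint
      rw [star_smul, star_sum, Complex.star_def, Complex.conj_ofReal]
      congr 1
      refine Finset.sum_congr rfl fun k _ => ?_
      rw [star_mul, star_mul, star_star, star_mul, star_star]
      simp only [mul_assoc]
    have hΨA : Ψ A = Ψ (star x * x) := by
      rw [hA, map_smul, map_sum, Finset.sum_congr rfl fun k _ =>
        (hconj (g k) (hg k).1 (hg k).2.1 (hg k).2.2).2.2, Finset.sum_const, Finset.card_univ,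
        Fintype.card_fin, nsmul_eq_mul, smul_eq_mul, ← mul_assoc]
      have h1 : ((N + 1 : ℂ))⁻¹ * ((N + 1 : ℕ) : ℂ) = 1 := by
        push_cast
        exact inv_mul_cancel₀ (by exact_mod_cast hN.ne')
      rw [h1, one_mul]
    have hφA : (∑ j, ⟪η j, A (η j)⟫_ℂ).re = ((N : ℝ) + 1)⁻¹ *
        ∑ k, (∑ j, ⟪η j, (g k * (star x * x) * star (g k)) (η j)⟫_ℂ).re := by
      have h1 : ∑ j, ⟪η j, A (η j)⟫_ℂ = ((((N : ℝ) + 1)⁻¹ : ℝ) : ℂ) *
          ∑ k, ∑ j, ⟪η j, (g k * (star x * x) * star (g k)) (η j)⟫_ℂ := by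
        rw [hA, hNc, Finset.sum_comm, Finset.mul_sum]
        refine Finset.sum_congr rfl fun j _ => ?_
        rw [_root_.smul_apply, inner_smul_right, _root_.sum_apply,
          inner_sum]
      rw [h1, Complex.re_ofReal_mul, Complex.re_sum]
    have hup : (∑ j, ⟪η j, A (η j)⟫_ℂ).re ≤ 2 * X := by
      rw [hφA, inv_mul_le_iff₀ hN]
      calc ∑ k, (∑ j, ⟪η j, (g k * (star x * x) * star (g k)) (η j)⟫_ℂ).re
          ≤ ∑ _k : Fin (N + 1), 2 * X :=
            Finset.sum_le_sum fun k _ => (hconj (g k) (hg k).1 (hg k).2.1 (hg k).2.2).1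
        _ = ((N : ℝ) + 1) * (2 * X) := by
            rw [Finset.sum_const, Finset.card_univ, Fintype.card_fin, nsmul_eq_mul]
            push_cast
            ring
    have hlo : X ≤ 2 * (∑ j, ⟪η j, A (η j)⟫_ℂ).re := by
      have h1 : ((N : ℝ) + 1) * X ≤
          2 * ∑ k, (∑ j, ⟪η j, (g k * (star x * x) * star (g k)) (η j)⟫_ℂ).re := by
        calc ((N : ℝ) + 1) * X = ∑ _k : Fin (N + 1), X := by
              rw [Finset.sum_const, Finset.card_univ, Fintype.card_fin, nsmul_eq_mul]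
              push_cast
              ring
          _ ≤ ∑ k, 2 * (∑ j, ⟪η j, (g k * (star x * x) * star (g k)) (η j)⟫_ℂ).re :=
            Finset.sum_le_sum fun k _ => (hconj (g k) (hg k).1 (hg k).2.1 (hg k).2.2).2.1
          _ = _ := by rw [Finset.mul_sum]
      rw [hφA]
      have h2 : 2 * (((N : ℝ) + 1)⁻¹ *
          ∑ k, (∑ j, ⟪η j, (g k * (star x * x) * star (g k)) (η j)⟫_ℂ).re) =
          ((N : ℝ) + 1)⁻¹ * (2 *
          ∑ k, (∑ j, ⟪η j, (g k * (star x * x) * star (g k)) (η j)⟫_ℂ).re) := by ring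
      rw [h2, le_inv_mul_iff₀ hN]
      exact h1
    -- the central element
    have hd1 := state_le hΨ.pos hone (hAs.sub hzs) hd
    have hd' : ‖z - A‖ ≤ ε := by
      rw [norm_sub_rev]
      exact hd
    have hd2 := state_le hΨ.pos hone (hzs.sub hAs) hd'
    rw [map_sub, Complex.sub_re] at hd1 hd2
    have hφd : |(∑ j, ⟪η j, A (η j)⟫_ℂ).re - (∑ j, ⟪η j, z (η j)⟫_ℂ).re| ≤ S * ε := by
      rw [← Complex.sub_re, ← Finset.sum_sub_distrib]
      refine (Complex.abs_re_le_norm _).trans ((norm_sum_le _ _).trans ?_)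
      rw [hS, Finset.sum_mul]
      refine Finset.sum_le_sum fun j _ => ?_
      rw [← inner_sub_right, ← _root_.sub_apply]
      calc ‖⟪η j, (A - z) (η j)⟫_ℂ‖ ≤ ‖η j‖ * ‖(A - z) (η j)‖ := norm_inner_le_norm _ _
        _ ≤ ‖η j‖ * (ε * ‖η j‖) := by
            apply mul_le_mul_of_nonneg_left _ (norm_nonneg _)
            exact ((A - z).le_opNorm _).trans (mul_le_mul_of_nonneg_right hd (norm_nonneg _))
        _ = ‖η j‖ ^ 2 * ε := by ring
    rw [abs_le] at hφd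
    have hzz : (Ψ z).re = (∑ j, ⟪η j, z (η j)⟫_ℂ).re := by rw [hΨz z hz]
    rw [hΨA] at hd1 hd2
    constructor
    · nlinarith [hφd.1, hφd.2]
    · nlinarith [hφd.1, hφd.2]
  constructor
  · apply le_of_forall_pos_le_add
    intro δ hδ
    have h1 := (main (δ / (1 + S)) (by positivity)).1
    rwa [mul_div_cancel₀ δ (by positivity : (1 + S) ≠ 0)] at h1
  · apply le_of_forall_pos_le_add
    intro δ hδ
    have h1 := (main (δ / (2 * (1 + S))) (by positivity)).2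
    rwa [mul_div_cancel₀ δ (by positivity : 2 * (1 + S) ≠ 0)] at h1

end H97R2.BP
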